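import Pool.Agent.H30.AV.Targets2

/-!
Module SGR of avr_modules.
-/

set_option autoImplicit false

namespace Pool.Agent.H77.AV

open MvPolynomial Pool.Agent.H30.AV

open scoped IntermediateField.algebraAdjoinAdjoin in
/-- the transcendence degree of the coordinate ring of a point -/
theorem trdeg_ker {k Ω τ : Type} [Field k] [Field Ω] [Algebra k Ω] (ζ : τ → Ω) :
    Algebra.trdeg k (MvPolynomial τ k ⧸ RingHom.ker (aeval (R := k) ζ)) =
      Algebra.trdeg k (IntermediateField.adjoin k (Set.range ζ)) := by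
  rw [(Ideal.quotientKerEquivRange (aeval (R := k) ζ)).trdeg_eq]
  have h1 : Algebra.trdeg k (aeval (R := k) ζ).range =
      Algebra.trdeg k (Algebra.adjoin k (Set.range ζ)) := by
    rw [Algebra.adjoin_range_eq_range_aeval]
  rw [h1, ← trdeg_add_eq k (Algebra.adjoin k (Set.range ζ))
    (A := IntermediateField.adjoin k (Set.range ζ)),
    trdeg_eq_zero (R := Algebra.adjoin k (Set.range ζ)), add_zero]

/-- homogeneous ideals vanish on scaled points -/
theorem hom_scale {k Ω τ : Type} [Field k] [CommRing Ω] [Algebra k Ω]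
    (P : Ideal (MvPolynomial τ k)) (hhom : IsHom P) (ζ : τ → Ω) (hζ : ∀ g ∈ P, aeval ζ g = 0)
    (c : Ω) : ∀ g ∈ P, aeval (fun i => c * ζ i) g = 0 := by
  intro g hg
  rw [← MvPolynomial.sum_homogeneousComponent g, map_sum]
  refine Finset.sum_eq_zero fun d _ => ?_
  have h1 : (homogeneousComponent d g).IsHomogeneous d := homogeneousComponent_isHomogeneous d g
  have h2 : aeval (fun i => c * ζ i) (homogeneousComponent d g) =
      c ^ d * aeval ζ (homogeneousComponent d g) := by
    rw [aeval_def, aeval_def, eval₂_eq, eval₂_eq, Finset.mul_sum]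
    refine Finset.sum_congr rfl fun m hm => ?_
    have h3 : ∑ i ∈ m.support, m i = d := by
      have h4 := h1 (mem_support_iff.1 hm)
      rw [Finsupp.weight_apply] at h4
      simpa [Finsupp.sum] using h4
    rw [Finset.prod_congr rfl fun i _ => mul_pow c (ζ i) (m i), Finset.prod_mul_distrib,
      Finset.prod_pow_eq_pow_sum, h3]
    ring
  rw [h2, hζ _ (hhom g hg d), mul_zero]

theorem isPrime_ker {k Ω τ : Type} [Field k] [CommRing Ω] [IsDomain Ω] [Algebra k Ω]
    (ζ : τ → Ω) : (RingHom.ker (aeval (R := k) ζ)).IsPrime := RingHom.ker_isPrime _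

/-- SGR -/
theorem pf_SGR (hTRQ : T_TRQ) : T_SGR := by
  classical
  intro k Ω _ _ _ n β P ζ hP hhom hSeg hX0 htr hζ hζ0
  obtain ⟨⟨s0, j0⟩, hlam⟩ := Function.ne_iff.1 hζ0
  rw [Pi.zero_apply] at hlam
  obtain ⟨lam, hlamd⟩ : ∃ lam, lam = ζ (s0, j0) := ⟨_, rfl⟩
  rw [← hlamd] at hlam
  obtain ⟨ξ, hξ⟩ : ∃ ξ : Fin (n + 1) → Ω, ξ = fun s => ζ (s, j0) / lam := ⟨_, rfl⟩
  obtain ⟨η, hη⟩ : ∃ η : Fin n → Ω, η = fun j => ζ (s0, j) / lam := ⟨_, rfl⟩
  have hξ0 : ξ s0 = 1 := by rw [hξ]; simp only; rw [← hlamd]; exact div_self hlam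
  have hη0 : η j0 = 1 := by rw [hη]; simp only; rw [← hlamd]; exact div_self hlam
  have hmin : ∀ s j, ζ (s, j) = lam * (ξ s * η j) := by
    intro s j
    have h1 := hζ _ (hSeg s s0 j j0)
    rw [map_sub, map_mul, map_mul, aeval_X, aeval_X, aeval_X, aeval_X, ← hlamd] at h1
    rw [hξ, hη]
    field_simp
    linear_combination h1
  obtain ⟨ζ', hζ'⟩ : ∃ ζ' : Zv n → Ω, ζ' = fun p => ξ p.1 * η p.2 := ⟨_, rfl⟩
  have hscale : (fun p => lam⁻¹ * ζ p) = ζ' := by
    funext p
    rw [hζ']
    have h1 := hmin p.1 p.2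
    simp only
    have h2 : ζ p = lam * (ξ p.1 * η p.2) := h1
    rw [h2, inv_mul_cancel_left₀ hlam]
  have hζ'0 : ∀ g ∈ P, aeval ζ' g = 0 := by
    rw [← hscale]
    exact hom_scale P hhom ζ hζ lam⁻¹
  have hone : ζ' (s0, j0) = 1 := by rw [hζ']; simp only; rw [hξ0, hη0, one_mul]
  -- the field generated by the ratios
  have hadj : IntermediateField.adjoin k (Set.range ξ ∪ Set.range η) =
      IntermediateField.adjoin k (Set.range ζ') := by
    apply le_antisymm
    · rw [IntermediateField.adjoin_le_iff]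
      rintro x (⟨s, rfl⟩ | ⟨j, rfl⟩)
      · have h1 : ξ s = ζ' (s, j0) := by rw [hζ']; simp only; rw [hη0, mul_one]
        rw [h1]
        exact IntermediateField.subset_adjoin _ _ ⟨_, rfl⟩
      · have h1 : η j = ζ' (s0, j) := by rw [hζ']; simp only; rw [hξ0, one_mul]
        rw [h1]
        exact IntermediateField.subset_adjoin _ _ ⟨_, rfl⟩
    · rw [IntermediateField.adjoin_le_iff]
      rintro x ⟨p, rfl⟩
      rw [hζ']
      exact mul_mem (IntermediateField.subset_adjoin _ _ (Or.inl ⟨_, rfl⟩))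
        (IntermediateField.subset_adjoin _ _ (Or.inr ⟨_, rfl⟩))
  have hK1p := isPrime_ker (k := k) ζ'
  have hPK1 : P ≤ RingHom.ker (aeval (R := k) ζ') := fun g hg => hζ'0 g hg
  have hX1 : (X (s0, j0) - 1 : MvPolynomial (Zv n) k) ∈ RingHom.ker (aeval (R := k) ζ') := by
    rw [RingHom.mem_ker, map_sub, map_one, aeval_X, hone, sub_self]
  have hnot : (X (s0, j0) - 1 : MvPolynomial (Zv n) k) ∉ P := by
    intro h
    have h1 := hhom _ h 0
    rw [map_sub] at h1
    have h2 : homogeneousComponent 0 (X (s0, j0) : MvPolynomial (Zv n) k) = 0 := by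
      rw [homogeneousComponent_zero]
      simp
    have h3 : homogeneousComponent 0 (1 : MvPolynomial (Zv n) k) = 1 := by
      rw [homogeneousComponent_zero]
      simp
    rw [h2, h3, zero_sub] at h1
    have h4 : (1 : MvPolynomial (Zv n) k) ∈ P := by
      have := P.neg_mem h1
      rwa [neg_neg] at this
    exact hP.ne_top ((Ideal.eq_top_iff_one P).2 h4)
  have hlt1 : P < RingHom.ker (aeval (R := k) ζ') :=
    lt_of_le_of_ne hPK1 fun h => hnot (by rw [h]; exact hX1)
  refine ⟨s0, j0, lam, ξ, η, hlam, hξ0, hη0, hmin, ?_, ?_⟩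
  · rw [hadj, ← trdeg_ker]
    have h1 := (hTRQ k (Zv n) P _ hP hK1p hlt1).trans htr
    have h2 : ((β + 2 : ℕ) : Cardinal) = ((β + 1 : ℕ) : Cardinal) + 1 := by push_cast; ring
    rw [h2] at h1
    exact Cardinal.add_one_le_add_one_iff.1 h1
  · intro hξz
    obtain ⟨ζT, hζT⟩ : ∃ ζT : Zv n → Polynomial Ω, ζT = fun p =>
      Polynomial.X * Polynomial.C (ζ' p) := ⟨_, rfl⟩
    have hK2p := isPrime_ker (k := k) ζT
    have hCa : ∀ g : MvPolynomial (Zv n) k, aeval (fun p => Polynomial.C (ζ' p)) g =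
        Polynomial.C (aeval ζ' g) := by
      intro g
      have h1 := comp_aeval_apply (R := k) ζ'
        (Polynomial.CAlgHom (R := k) (A := Ω)) g
      exact h1.symm
    have hPK2 : P ≤ RingHom.ker (aeval (R := k) ζT) := by
      intro g hg
      rw [RingHom.mem_ker, hζT]
      refine hom_scale P hhom (fun p => Polynomial.C (ζ' p)) ?_ Polynomial.X g hg
      intro g' hg'
      rw [hCa, hζ'0 g' hg', map_zero]
    obtain ⟨j1, hj1⟩ := hX0
    have hin : (X (0, j1) : MvPolynomial (Zv n) k) ∈ RingHom.ker (aeval (R := k) ζT) := by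
      rw [RingHom.mem_ker, aeval_X, hζT, hζ']
      simp only
      rw [hξz, zero_mul, map_zero, mul_zero]
    have hlt2 : P < RingHom.ker (aeval (R := k) ζT) :=
      lt_of_le_of_ne hPK2 fun h => hj1 (by rw [h]; exact hin)
    have hev : ∀ g : MvPolynomial (Zv n) k, (Polynomial.aeval (1 : Ω)) (aeval ζT g) =
        aeval ζ' g := by
      intro g
      have h1 := comp_aeval_apply (R := k) ζT
        ((Polynomial.aeval (R := Ω) (1 : Ω)).restrictScalars k) g
      rw [AlgHom.restrictScalars_apply] at h1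
      rw [h1]
      congr 2
      funext p
      rw [hζT, AlgHom.restrictScalars_apply]
      simp
    have hle : RingHom.ker (aeval (R := k) ζT) ≤ RingHom.ker (aeval (R := k) ζ') := by
      intro g hg
      rw [RingHom.mem_ker] at hg ⊢
      rw [← hev, hg, map_zero]
    have hn2 : (X (s0, j0) - 1 : MvPolynomial (Zv n) k) ∉ RingHom.ker (aeval (R := k) ζT) := by
      intro h
      rw [RingHom.mem_ker, map_sub, map_one, aeval_X, hζT] at h
      simp only at h
      rw [hone, map_one, mul_one, sub_eq_zero] at h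
      exact Polynomial.X_ne_C (1 : Ω) (by rw [h, map_one])
    have hlt3 : RingHom.ker (aeval (R := k) ζT) < RingHom.ker (aeval (R := k) ζ') :=
      lt_of_le_of_ne hle fun h => hn2 (by rw [h]; exact hX1)
    rw [hadj, ← trdeg_ker]
    have h1 := hTRQ k (Zv n) _ _ hK2p hK1p hlt3
    have h2 := (hTRQ k (Zv n) P _ hP hK2p hlt2).trans htr
    have h3 : ((β + 2 : ℕ) : Cardinal) = ((β + 1 : ℕ) : Cardinal) + 1 := by push_cast; ring
    rw [h3] at h2
    have h4 := Cardinal.add_one_le_add_one_iff.1 h2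
    have h5 := h1.trans h4
    rw [Nat.cast_add, Nat.cast_one] at h5
    exact Cardinal.add_one_le_add_one_iff.1 h5

end Pool.Agent.H77.AV
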