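import Pool.Agent.H30.AV.Targets

/-!
Module ALI of avr_modules.
-/

set_option autoImplicit false

namespace Pool.Agent.H77.AV

open MvPolynomial Pool.Agent.H30.AV

/-- ALI -/
theorem pf_ALI (hMOD : T_MOD) : T_ALI := by
  classical
  intro L τ _ _ β m P t hP hhom htr ht hm f hf
  have hdom : IsDomain (MvPolynomial τ L ⧸ P) := Ideal.Quotient.isDomain P
  obtain ⟨π, hπ⟩ : ∃ π : MvPolynomial τ L →ₐ[L] (MvPolynomial τ L ⧸ P),
    π = Ideal.Quotient.mkₐ L P := ⟨_, rfl⟩
  have hπ0 : ∀ g, π g = 0 ↔ g ∈ P := by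
    intro g
    rw [hπ, Ideal.Quotient.mkₐ_eq_mk]
    exact Ideal.Quotient.eq_zero_iff_mem
  have hmemA : ∀ c : MvPolynomial (Fin (β + 2)) L, π (aeval t c) ∈
      Algebra.adjoin L (Set.range fun i => π (t i)) := by
    intro c
    have h1 : π (aeval t c) = aeval (fun i => π (t i)) c := by
      rw [← comp_aeval_apply]
    rw [h1, Algebra.adjoin_range_eq_range_aeval]
    exact ⟨c, rfl⟩
  have hfin : Module.Finite (Algebra.adjoin L (Set.range fun i => π (t i)))
      (MvPolynomial τ L ⧸ P) := by
    refine ⟨⟨(Finsupp.finite_of_degree_lt (σ := τ) m).toFinset.image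
      (fun M => π (monomial M 1)), ?_⟩⟩
    rw [eq_top_iff]
    rintro b -
    obtain ⟨g, hg⟩ := Ideal.Quotient.mk_surjective b
    have hb : b = π g := by rw [hπ, ← hg]; rfl
    rw [hb, ← MvPolynomial.sum_homogeneousComponent g, map_sum]
    refine Submodule.sum_mem _ fun N _ => ?_
    obtain ⟨s, c, hs, hsum⟩ := hMOD L τ β m P t hhom ht hm N (homogeneousComponent N g)
      (homogeneousComponent_isHomogeneous N g)
    have h2 : π (homogeneousComponent N g) = ∑ M ∈ s, π (aeval t (c M)) * π (monomial M 1) := by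
      have h3 := (hπ0 _).2 hsum
      rw [map_sub, sub_eq_zero, map_sum] at h3
      rw [h3]
      exact Finset.sum_congr rfl fun M _ => map_mul π _ _
    rw [h2]
    refine Submodule.sum_mem _ fun M hM => ?_
    have h4 : π (aeval t (c M)) * π (monomial M 1) =
        (⟨π (aeval t (c M)), hmemA (c M)⟩ : Algebra.adjoin L (Set.range fun i => π (t i))) •
          π (monomial M 1) := rfl
    rw [h4]
    refine Submodule.smul_mem _ _ (Submodule.subset_span ?_)
    rw [Finset.coe_image]
    refine ⟨M, ?_, rfl⟩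
    rw [Set.Finite.coe_toFinset]
    exact (hs M hM).1
  have hInt : Algebra.IsIntegral (Algebra.adjoin L (Set.range fun i => π (t i)))
    (MvPolynomial τ L ⧸ P) := Algebra.IsIntegral.of_finite _ _
  have hAlg : Algebra.IsAlgebraic (Algebra.adjoin L (Set.range fun i => π (t i)))
    (MvPolynomial τ L ⧸ P) := inferInstance
  have hB := Algebra.IsAlgebraic.isTranscendenceBasis_of_le_trdeg_of_finite L
    (fun i => π (t i)) (by
      rw [htr, Cardinal.mk_fintype, Fintype.card_fin])
  have hind : AlgebraicIndependent L (fun i => π (t i)) := hB.1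
  refine (algebraicIndependent_iff.1 hind) f ?_
  have h1 : aeval (fun i => π (t i)) f = π (aeval t f) := by
    rw [← comp_aeval_apply]
  rw [h1]
  exact (hπ0 _).2 hf

end Pool.Agent.H77.AV
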