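import Pool.Agent.H91.AV.Targets

/-! Row MAS: total mass. -/

set_option autoImplicit false

namespace Pool.Agent.H77.AV

open Finset Pool.Agent.H91.AV

theorem pf_MAS : S_MAS := by
  classical
  intro H U Z _ _ _ h hh N D a
  have h1 : ∑ x : Fin N → U, D (fun i => h (a i) (x i)) =
      ∑ z : Fin N → Z,
        ((univ.filter (fun x : Fin N → U => (fun i => h (a i) (x i)) = z)).card : ℝ) * D z := by
    rw [← Finset.sum_fiberwise univ (fun x : Fin N → U => (fun i => h (a i) (x i)))
      (fun x => D (fun i => h (a i) (x i)))]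
    refine Finset.sum_congr rfl fun z _ => ?_
    rw [Finset.sum_congr rfl (g := fun _ => D z) (fun x hx => by rw [(Finset.mem_filter.1 hx).2])]
    rw [Finset.sum_const, nsmul_eq_mul]
  have h2 : ∀ z : Fin N → Z,
      ((univ.filter (fun x : Fin N → U => (fun i => h (a i) (x i)) = z)).card : ℝ) *
        (Fintype.card Z : ℝ) ^ N = (Fintype.card U : ℝ) ^ N := by
    intro z
    have e : univ.filter (fun x : Fin N → U => (fun i => h (a i) (x i)) = z) =
        Fintype.piFinset (fun i => univ.filter (fun u : U => h (a i) u = z i)) := by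
      ext x
      simp only [Finset.mem_filter, Finset.mem_univ, true_and, Fintype.mem_piFinset]
      exact funext_iff
    rw [e, Fintype.card_piFinset]
    push_cast
    have e2 : (Fintype.card Z : ℝ) ^ N = ∏ _i : Fin N, (Fintype.card Z : ℝ) := by
      simp
    rw [e2, ← Finset.prod_mul_distrib]
    have e3 : ∀ i : Fin N, ((univ.filter (fun u : U => h (a i) u = z i)).card : ℝ) *
        (Fintype.card Z : ℝ) = Fintype.card U := by
      intro i
      exact_mod_cast hh (a i) (z i)
    rw [Finset.prod_congr rfl (fun i _ => e3 i)]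
    simp
  rw [h1, Finset.sum_mul, Finset.mul_sum]
  refine Finset.sum_congr rfl fun z _ => ?_
  rw [mul_right_comm, h2 z]

end Pool.Agent.H77.AV
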